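import Pool.Agent.H43.SI.Psi
import Pool.Agent.H11.WX.Gau

/-!
# [WILD H Pnt] The prime number theorem in windows of length `y^(-A1)`

`win`: `1.97 h <= Σ_{|log n - y| <= h} Λ(n)/n` for `y^(-A1)/2 <= h <= 1/100`, `y >= y0(A1)`.
`pnt`: `1/2 <= Σ Λ(n)/n g_δ(log n - y)` for `y^(-A1) <= δ <= 1/100`.
-/

set_option autoImplicit false

namespace Pool.Agent.H4.WH

open Finset Pool.Agent.H43 Pool.Agent.H43.SI Pool.Agent.H11.WX

open ArithmeticFunction (vonMangoldt)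

theorem psi_real (A : ℝ) (hA : 0 < A) : ∃ C : ℝ, 0 < C ∧ ∀ x : ℝ, 2 ≤ x →
    |∑ n ∈ Icc 1 ⌊x⌋₊, vonMangoldt n - x| ≤ C * x * (Real.log x) ^ (-A) := by
  obtain ⟨C, hC, h⟩ := psi_log 1 A hA
  refine ⟨C, hC, fun x hx => ?_⟩
  have h1 := h 1 x hx
  rw [if_pos rfl] at h1
  have h2 : ∑ n ∈ Icc 1 ⌊x⌋₊, ((vonMangoldt n : ℝ) : ℂ) * (1 : DirichletCharacter ℂ 1) n - (x : ℂ) =
      ((∑ n ∈ Icc 1 ⌊x⌋₊, vonMangoldt n - x : ℝ) : ℂ) := by
    push_cast
    congr 1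
    refine Finset.sum_congr rfl fun n _ => ?_
    have : (1 : DirichletCharacter ℂ 1) (n : ZMod 1) = 1 := by
      apply MulChar.one_apply
      exact isUnit_of_subsingleton _
    rw [this, mul_one]
  rw [h2, Complex.norm_real, Real.norm_eq_abs] at h1
  exact h1

theorem win (A1 : ℝ) (hA : 0 < A1) : ∃ y0 : ℝ, 2 ≤ y0 ∧ ∀ y : ℝ, y0 ≤ y → ∀ h : ℝ,
    y ^ (-A1) / 2 ≤ h → h ≤ 1 / 100 → ∀ N : ℕ, Real.exp (y + h) ≤ N →
    1.97 * h ≤ ∑ n ∈ (Icc 1 N).filter (fun n : ℕ => |Real.log n - y| ≤ h), vonMangoldt n / n := by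
  obtain ⟨C, hC, hpsi⟩ := psi_real (A1 + 1) (by linarith)
  refine ⟨max 4 (400 * C * 2 ^ (A1 + 1)), le_trans (by norm_num) (le_max_left _ _), ?_⟩
  intro y hy h hh1 hh2 N hN
  have hy4 : 4 ≤ y := (le_max_left _ _).trans hy
  have hyC : 400 * C * 2 ^ (A1 + 1) ≤ y := (le_max_right _ _).trans hy
  have hy0 : 0 < y := by linarith
  have hp : 0 < y ^ (-A1) := by positivity
  have hh0 : 0 < h := by linarith
  set a : ℝ := Real.exp (y - h) with ha
  set b : ℝ := Real.exp (y + h) with hb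
  have hb0 : 0 < b := Real.exp_pos _
  have ha0 : 0 < a := Real.exp_pos _
  have hab : a ≤ b := Real.exp_le_exp.2 (by linarith)
  have ha2 : 2 ≤ a := by
    have := Real.add_one_le_exp (y - h)
    linarith
  have hpa := hpsi a ha2
  have hpb := hpsi b (ha2.trans hab)
  have hla : Real.log a = y - h := Real.log_exp _
  have hlb : Real.log b = y + h := Real.log_exp _
  rw [hla] at hpa
  rw [hlb] at hpb
  -- the error terms
  have hE : ∀ z : ℝ, y / 2 ≤ z → C * z ^ (-(A1 + 1)) ≤ h / 200 := by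
    intro z hz
    have hz0 : 0 < z := by linarith
    have e1 : z ^ (-(A1 + 1)) ≤ (y / 2) ^ (-(A1 + 1)) :=
      Real.rpow_le_rpow_of_nonpos (by linarith) hz (by linarith)
    have e2 : (y / 2) ^ (-(A1 + 1)) = 2 ^ (A1 + 1) * (y ^ (-A1) * y⁻¹) := by
      rw [Real.div_rpow hy0.le (by norm_num), Real.rpow_neg (by norm_num : (0:ℝ) ≤ 2), div_inv_eq_mul,
        mul_comm, show -(A1 + 1) = -A1 + (-1) by ring, Real.rpow_add hy0, Real.rpow_neg_one]
    calc C * z ^ (-(A1 + 1)) ≤ C * (2 ^ (A1 + 1) * (y ^ (-A1) * y⁻¹)) := by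
          rw [← e2]
          exact mul_le_mul_of_nonneg_left e1 hC.le
      _ = (400 * C * 2 ^ (A1 + 1)) * y⁻¹ * y ^ (-A1) / 400 := by ring
      _ ≤ y * y⁻¹ * y ^ (-A1) / 400 := by gcongr
      _ = y ^ (-A1) / 400 := by rw [mul_inv_cancel₀ hy0.ne', one_mul]
      _ ≤ h / 200 := by linarith
  have hEa := hE (y - h) (by linarith)
  have hEb := hE (y + h) (by linarith)
  rw [abs_le] at hpa hpb
  -- the sum over the window
  have hfl : ⌊a⌋₊ ≤ ⌊b⌋₊ := Nat.floor_le_floor hab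
  have hsplit : ∑ n ∈ Icc 1 ⌊b⌋₊, vonMangoldt n - ∑ n ∈ Icc 1 ⌊a⌋₊, vonMangoldt n = ∑ n ∈ Ioc ⌊a⌋₊ ⌊b⌋₊, vonMangoldt n := by
    have e1 : Icc 1 ⌊b⌋₊ = Ioc 0 ⌊b⌋₊ := by
      ext n; simp [Finset.mem_Icc, Finset.mem_Ioc]; omega
    have e2 : Icc 1 ⌊a⌋₊ = Ioc 0 ⌊a⌋₊ := by
      ext n; simp [Finset.mem_Icc, Finset.mem_Ioc]; omega
    rw [e1, e2, ← Finset.sum_Ioc_consecutive _ (Nat.zero_le _) hfl]
    ring
  have hmain : b - a - (h / 100) * b ≤ ∑ n ∈ Ioc ⌊a⌋₊ ⌊b⌋₊, vonMangoldt n := by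
    rw [← hsplit]
    have e1 : C * a * (y - h) ^ (-(A1 + 1)) ≤ h / 200 * b := by
      calc C * a * (y - h) ^ (-(A1 + 1)) = C * (y - h) ^ (-(A1 + 1)) * a := by ring
        _ ≤ h / 200 * b := mul_le_mul hEa hab ha0.le (by positivity)
    have e2 : C * b * (y + h) ^ (-(A1 + 1)) ≤ h / 200 * b := by
      calc C * b * (y + h) ^ (-(A1 + 1)) = C * (y + h) ^ (-(A1 + 1)) * b := by ring
        _ ≤ h / 200 * b := mul_le_mul_of_nonneg_right hEb hb0.le
    linarith [hpa.2, hpb.1]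
  have hsub : Ioc ⌊a⌋₊ ⌊b⌋₊ ⊆ (Icc 1 N).filter (fun n : ℕ => |Real.log n - y| ≤ h) := by
    intro n hn
    rw [Finset.mem_Ioc] at hn
    have hn1 : a < n := (Nat.floor_lt ha0.le).1 hn.1
    have hn2 : (n : ℝ) ≤ b := (Nat.le_floor_iff hb0.le).1 hn.2
    have hn0 : (0 : ℝ) < n := ha0.trans hn1
    rw [Finset.mem_filter, Finset.mem_Icc]
    refine ⟨⟨by exact_mod_cast hn0, by exact_mod_cast hn2.trans hN⟩, ?_⟩
    have l1 : y - h < Real.log n := by
      rw [← hla]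
      exact Real.log_lt_log ha0 hn1
    have l2 : Real.log n ≤ y + h := by
      rw [← hlb]
      exact Real.log_le_log hn0 hn2
    rw [abs_le]
    constructor <;> linarith
  have hterm : ∀ n ∈ Ioc ⌊a⌋₊ ⌊b⌋₊, vonMangoldt n / b ≤ vonMangoldt n / n := by
    intro n hn
    rw [Finset.mem_Ioc] at hn
    have hn1 : a < n := (Nat.floor_lt ha0.le).1 hn.1
    have hn2 : (n : ℝ) ≤ b := (Nat.le_floor_iff hb0.le).1 hn.2
    exact div_le_div_of_nonneg_left ArithmeticFunction.vonMangoldt_nonneg (ha0.trans hn1) hn2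
  have h1 : ∑ n ∈ Ioc ⌊a⌋₊ ⌊b⌋₊, vonMangoldt n / n ≤
      ∑ n ∈ (Icc 1 N).filter (fun n : ℕ => |Real.log n - y| ≤ h), vonMangoldt n / n :=
    Finset.sum_le_sum_of_subset_of_nonneg hsub fun n _ _ =>
      div_nonneg ArithmeticFunction.vonMangoldt_nonneg (Nat.cast_nonneg _)
  refine le_trans ?_ h1
  refine le_trans ?_ (Finset.sum_le_sum hterm)
  rw [← Finset.sum_div, le_div_iff₀ hb0]
  refine le_trans ?_ hmain
  have hexp : a = b * Real.exp (-(2 * h)) := by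
    rw [ha, hb, ← Real.exp_add]
    congr 1
    ring
  have hq : Real.exp (-(2 * h)) ≤ 1 - 2 * h + (2 * h) ^ 2 / 2 := by
    have e1 : 1 + 2 * h + (2 * h) ^ 2 / 2 ≤ Real.exp (2 * h) :=
      Real.quadratic_le_exp_of_nonneg (by linarith)
    rw [Real.exp_neg, inv_le_comm₀ (Real.exp_pos _) (by nlinarith)]
    refine le_trans ?_ e1
    rw [inv_le_iff_one_le_mul₀ (by nlinarith)]
    nlinarith [sq_nonneg (2 * h), sq_nonneg ((2 * h) ^ 2)]
  rw [hexp]
  have hf : b * Real.exp (-(2 * h)) ≤ b * (1 - 2 * h + (2 * h) ^ 2 / 2) :=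
    mul_le_mul_of_nonneg_left hq hb0.le
  have hg : 1.97 * h ≤ 1 - (1 - 2 * h + (2 * h) ^ 2 / 2) - h / 100 := by nlinarith
  have hg2 := mul_le_mul_of_nonneg_right hg hb0.le
  linarith

theorem pnt (A1 : ℝ) (hA : 0 < A1) : ∃ y0 : ℝ, 2 ≤ y0 ∧ ∀ y : ℝ, y0 ≤ y → ∀ δ : ℝ,
    y ^ (-A1) ≤ δ → δ ≤ 1 / 100 → ∀ N : ℕ, Real.exp (y + δ) ≤ N →
    1 / 2 ≤ ∑ n ∈ Icc 1 N, vonMangoldt n / n * gk δ (Real.log n - y) := by
  obtain ⟨y0, hy0, hw⟩ := win A1 hA
  refine ⟨y0, hy0, fun y hy δ hd1 hd2 N hN => ?_⟩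
  have hyp : 0 < y := by linarith
  have hp : 0 < y ^ (-A1) := by positivity
  have hd0 : 0 < δ := by linarith
  have w1 := hw y hy δ (by linarith) hd2 N hN
  have w2 := hw y hy (δ / 2) (by linarith) (by linarith) N
    ((Real.exp_le_exp.2 (by linarith)).trans hN)
  set c : ℝ := 1 / (δ * Real.sqrt (2 * Real.pi)) with hc
  have hsq : 0 < Real.sqrt (2 * Real.pi) := Real.sqrt_pos.2 (by positivity)
  have hc0 : 0 < c := by positivity
  have hterm : ∀ n ∈ Icc 1 N, c * (0.6 * (if |Real.log n - y| ≤ δ then vonMangoldt n / n else 0) +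
      0.275 * (if |Real.log n - y| ≤ δ / 2 then vonMangoldt n / n else 0)) ≤
      vonMangoldt n / n * gk δ (Real.log n - y) := by
    intro n _
    have hL : 0 ≤ vonMangoldt n / (n : ℝ) := div_nonneg ArithmeticFunction.vonMangoldt_nonneg (Nat.cast_nonneg _)
    set v : ℝ := Real.log n - y with hv
    have hg : gk δ v = c * Real.exp (-(v ^ 2 / (2 * δ ^ 2))) := by
      unfold gk
      rw [hc]
      ring
    have hg0 : 0 ≤ Real.exp (-(v ^ 2 / (2 * δ ^ 2))) := (Real.exp_pos _).le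
    rw [hg]
    by_cases h1 : |v| ≤ δ / 2
    · have h2 : |v| ≤ δ := by linarith
      rw [if_pos h1, if_pos h2]
      have h3 : v ^ 2 ≤ (δ / 2) ^ 2 := by
        rw [← sq_abs v]
        exact pow_le_pow_left₀ (abs_nonneg _) h1 2
      have h4 : v ^ 2 / (2 * δ ^ 2) ≤ 1 / 8 := by
        rw [div_le_iff₀ (by positivity)]
        nlinarith
      have h5 : 0.875 ≤ Real.exp (-(v ^ 2 / (2 * δ ^ 2))) := by
        have := Real.add_one_le_exp (-(v ^ 2 / (2 * δ ^ 2)))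
        linarith
      have h6 := mul_le_mul_of_nonneg_left h5 (mul_nonneg hL hc0.le)
      linarith
    · rw [if_neg h1]
      by_cases h2 : |v| ≤ δ
      · rw [if_pos h2]
        have h3 : v ^ 2 ≤ δ ^ 2 := by
          rw [← sq_abs v]
          exact pow_le_pow_left₀ (abs_nonneg _) h2 2
        have h4 : v ^ 2 / (2 * δ ^ 2) ≤ 1 / 2 := by
          rw [div_le_iff₀ (by positivity)]
          nlinarith
        have h5 : 0.6 ≤ Real.exp (-(v ^ 2 / (2 * δ ^ 2))) := by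
          refine le_trans ?_ (Real.exp_le_exp.2 (neg_le_neg h4))
          have e1 : Real.exp (1 / 2) * Real.exp (1 / 2) = Real.exp 1 := by
            rw [← Real.exp_add]
            norm_num
          have e2 := Real.exp_one_lt_d9
          have e3 : 0 < Real.exp (1 / 2) := Real.exp_pos _
          have e4 : Real.exp (1 / 2) ≤ 5 / 3 := by nlinarith
          rw [Real.exp_neg, le_inv_comm₀ (by norm_num) e3]
          refine e4.trans (by norm_num)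
        have h6 := mul_le_mul_of_nonneg_left h5 (mul_nonneg hL hc0.le)
        linarith
      · rw [if_neg h2]
        have := mul_nonneg hL (mul_nonneg hc0.le hg0)
        linarith
  refine le_trans ?_ (Finset.sum_le_sum hterm)
  rw [← Finset.mul_sum, Finset.sum_add_distrib, ← Finset.mul_sum, ← Finset.mul_sum,
    ← Finset.sum_filter, ← Finset.sum_filter]
  have h7 : 1.45 * δ ≤ 0.6 * (∑ n ∈ (Icc 1 N).filter (fun n : ℕ => |Real.log n - y| ≤ δ), vonMangoldt n / n) +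
      0.275 * (∑ n ∈ (Icc 1 N).filter (fun n : ℕ => |Real.log n - y| ≤ δ / 2), vonMangoldt n / n) := by
    linarith
  have h8 := mul_le_mul_of_nonneg_left h7 hc0.le
  refine le_trans ?_ h8
  have h9 : c * (1.45 * δ) = 1.45 / Real.sqrt (2 * Real.pi) := by
    rw [hc]
    field_simp
  rw [h9, le_div_iff₀ hsq]
  have h10 : Real.sqrt (2 * Real.pi) ≤ 2.6 := by
    rw [Real.sqrt_le_left (by norm_num)]
    have := Real.pi_lt_d2
    nlinarith
  linarith

theorem pntC (A1 : ℝ) (hA : 0 < A1) : ∃ y0 : ℝ, 2 ≤ y0 ∧ ∀ y : ℝ, y0 ≤ y → ∀ δ : ℝ,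
    y ^ (-A1) ≤ δ → δ ≤ 1 / 100 → ∀ N : ℕ, Real.exp (y + δ) ≤ N →
    1 / 2 ≤ (Gs (fun n => ((vonMangoldt n : ℝ) : ℂ)) N δ y).re := by
  obtain ⟨y0, hy0, hw⟩ := pnt A1 hA
  refine ⟨y0, hy0, fun y hy δ hd1 hd2 N hN => (hw y hy δ hd1 hd2 N hN).trans (le_of_eq ?_)⟩
  unfold Gs
  rw [Complex.re_sum]
  refine Finset.sum_congr rfl fun n _ => ?_
  have : ((vonMangoldt n : ℝ) : ℂ) / (n : ℂ) * ((gk δ (Real.log n - y) : ℝ) : ℂ) =
      ((vonMangoldt n / n * gk δ (Real.log n - y) : ℝ) : ℂ) := by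
    push_cast
    rfl
  rw [this, Complex.ofReal_re]

end Pool.Agent.H4.WH
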