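import Pool.Agent.H43.SI.Defs
import Pool.Agent.H43.SI.Pw
import Pool.Agent.H43.LF.Em

/-!
# [WILD H Smo] Smooth factors at small height

For `i = 3, 4, 5` and `t ≠ 0`: `‖pol (cf χ i) a t‖ <= 40 q (1 + a) (1/|t| + (1+|t|)/2^a)`.
-/

set_option autoImplicit false

namespace Pool.Agent.H4.WH

open Finset Pool.Agent.H43 Pool.Agent.H43.SI

theorem smo {q : ℕ} [NeZero q] (χ : DirichletCharacter ℂ q) (i : Fin 6) (hi : 3 ≤ (i : ℕ))
    (a : ℕ) (t : ℝ) (ht : t ≠ 0) :
    ‖pol (cf χ i) a t‖ ≤ 40 * q * (1 + a) * (1 / |t| + (1 + |t|) / 2 ^ a) := by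
  have hq : 0 < q := Nat.pos_of_ne_zero (NeZero.ne q)
  have hqR : (1 : ℝ) ≤ q := by exact_mod_cast hq
  have ht0 : 0 < |t| := abs_pos.2 ht
  have hi3 : ¬ (i : ℕ) < 3 := by omega
  rcases Nat.eq_zero_or_pos a with h0 | h0
  · subst h0
    refine (pw_triv χ i 0 t).trans ?_
    have h1 : 1 ≤ 1 / |t| + (1 + |t|) / 2 ^ 0 := by
      have : 0 < 1 / |t| := by positivity
      simp only [pow_zero, div_one]
      linarith
    simp only [Nat.cast_zero, add_zero, mul_one]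
    nlinarith
  · obtain ⟨b, rfl⟩ : ∃ b, a = b + 1 := ⟨a - 1, by omega⟩
    have hdiv : 2 ^ (b + 1) / 2 = 2 ^ b := by
      rw [pow_succ]
      omega
    have hb1 : 1 ≤ 2 ^ b := Nat.one_le_two_pow
    have hN3 : 2 ^ (b + 1) = 2 * 2 ^ b := by
      rw [pow_succ]
      ring
    have hem : ∀ K ≤ 2 ^ (b + 1), ‖LF.ds (fun n => χ n) (2 ^ b) K t‖ ≤
        20 * q * (1 / |t| + (1 + |t|) / 2 ^ (b + 1)) := by
      intro K hK
      have h1 := LF.em χ (2 ^ b) K hb1 (by omega) t ht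
      refine h1.trans ?_
      have h2 : (1 + |t|) / ((2 ^ b : ℕ) : ℝ) = 2 * ((1 + |t|) / 2 ^ (b + 1)) := by
        push_cast
        rw [pow_succ]
        field_simp
      rw [h2]
      have h3 : 0 ≤ 1 / |t| := by positivity
      have h4 : 0 ≤ (1 + |t|) / 2 ^ (b + 1) := by positivity
      nlinarith
    have hpos : 0 ≤ 1 / |t| + (1 + |t|) / 2 ^ (b + 1) := by positivity
    unfold pol
    rw [hdiv]
    by_cases hi4 : (i : ℕ) = 3
    · have e1 : LF.ds (cf χ i) (2 ^ b) (2 ^ (b + 1)) t =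
          ∑ n ∈ Ioc ((2 : ℕ) ^ b) ((2 : ℕ) ^ (b + 1)),
          ((Real.log n : ℝ) : ℂ) * (χ n * (n : ℂ) ^ (-(1 + (t : ℂ) * Complex.I))) := by
        unfold LF.ds
        refine Finset.sum_congr rfl fun n _ => ?_
        unfold cf
        rw [if_neg hi3, if_pos hi4]
        ring
      rw [e1]
      have h4 := pw_log (fun n : ℕ => χ n * (n : ℂ) ^ (-(1 + (t : ℂ) * Complex.I))) (2 ^ b)
        (2 ^ (b + 1)) (by omega) _ (fun K hK => hem K hK)
      refine h4.trans ?_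
      have h5 : Real.log ((2 ^ (b + 1) : ℕ) : ℝ) ≤ ((b + 1 : ℕ) : ℝ) := by
        push_cast
        rw [Real.log_pow]
        have h6 := Real.log_two_lt_d9
        push_cast
        nlinarith [Nat.cast_nonneg (α := ℝ) b]
      have h7 : 2 * Real.log ((2 ^ (b + 1) : ℕ) : ℝ) ≤ 2 * (1 + ((b + 1 : ℕ) : ℝ)) := by linarith
      refine (mul_le_mul_of_nonneg_right h7 (by positivity)).trans (le_of_eq ?_)
      ring
    · have e1 : cf χ i = fun n : ℕ => χ n := by
        funext n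
        unfold cf
        rw [if_neg hi3, if_neg hi4]
      rw [e1]
      refine (hem _ le_rfl).trans ?_
      have h5 : (0 : ℝ) ≤ ((b + 1 : ℕ) : ℝ) := Nat.cast_nonneg _
      apply mul_le_mul_of_nonneg_right _ hpos
      nlinarith

end Pool.Agent.H4.WH
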